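import Mathlib

/-!
# Rotation-closed sets of cells of an idempotent semisymmetric latin square
-/

namespace Pool.Agent.Semi79

open Finset

variable {α : Type*}

/-- idempotent and semisymmetric: `a * a = a` and `b * (a * b) = a` -/
structure ISQ (L : α → α → α) : Prop where
  idem : ∀ a, L a a = a
  semi : ∀ a b, L b (L a b) = a

namespace ISQ

variable {L : α → α → α} (h : ISQ L)
include h

lemma lat3 (a b : α) : L (L a b) a = b := by
  have := h.semi b (L a b)
  rwa [h.semi a b] at this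

lemma inj_left {a b c : α} (e : L a b = L a c) : b = c :=
  calc b = L (L a b) a := (h.lat3 a b).symm
    _ = L (L a c) a := by rw [e]
    _ = c := h.lat3 a c

lemma inj_right {a b c : α} (e : L a c = L b c) : a = b :=
  calc a = L c (L a c) := (h.semi a c).symm
    _ = L c (L b c) := by rw [e]
    _ = b := h.semi b c

lemma ne_left {a b : α} (hab : a ≠ b) : L a b ≠ a := fun e =>
  hab (h.inj_left (e.trans (h.idem a).symm)).symm

lemma ne_right {a b : α} (hab : a ≠ b) : L a b ≠ b := fun e =>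
  hab (h.inj_right (e.trans (h.idem b).symm))

end ISQ

variable [Fintype α] [DecidableEq α]

/-- the three cells obtained from `(a, b)` by rotation -/
def orb (L : α → α → α) (a b : α) : Finset (α × α) := {(a, b), (b, L a b), (L a b, a)}

/-- the number of cells of `E` in row `v` -/
def deg (E : Finset (α × α)) (v : α) : ℕ := (univ.filter fun b => (v, b) ∈ E).card

/-- the indicator of the three points of the block of `(a, b)` -/
def ind (L : α → α → α) (a b v : α) : ℕ := if v = a ∨ v = b ∨ v = L a b then 1 else 0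

/-- rotation-closed sets of off-diagonal cells -/
structure Rot (L : α → α → α) (E : Finset (α × α)) : Prop where
  off : ∀ {a b}, (a, b) ∈ E → a ≠ b
  rot : ∀ {a b}, (a, b) ∈ E → (b, L a b) ∈ E

omit [Fintype α] in
lemma mem_orb {L : α → α → α} {a b c d : α} :
    (c, d) ∈ orb L a b ↔ (c = a ∧ d = b) ∨ (c = b ∧ d = L a b) ∨ (c = L a b ∧ d = a) := by
  simp [orb]

lemma deg_union {E F : Finset (α × α)} (hd : Disjoint E F) (v : α) : deg (E ∪ F) v = deg E v + deg F v := by
  unfold deg
  rw [← card_union_of_disjoint]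
  · congr 1
    ext b
    simp
  · rw [disjoint_left]
    intro b hb hb'
    simp only [mem_filter, mem_univ, true_and] at hb hb'
    exact (disjoint_left.1 hd) hb hb'

lemma deg_sdiff {E F : Finset (α × α)} (hs : F ⊆ E) (v : α) : deg (E \ F) v + deg F v = deg E v := by
  rw [← deg_union sdiff_disjoint, sdiff_union_of_subset hs]

variable {L : α → α → α} {E : Finset (α × α)}

lemma deg_orb (h : ISQ L) {a b : α} (hab : a ≠ b) (v : α) : deg (orb L a b) v = ind L a b v := by
  have h1 := h.ne_left hab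
  have h2 := h.ne_right hab
  unfold deg ind
  split_ifs with hv
  · rw [card_eq_one]
    rcases hv with rfl | rfl | rfl
    · refine ⟨b, ?_⟩
      ext c
      simp only [mem_filter, mem_univ, true_and, mem_orb, mem_singleton]
      tauto
    · refine ⟨L a v, ?_⟩
      ext c
      simp only [mem_filter, mem_univ, true_and, mem_orb, mem_singleton]
      tauto
    · refine ⟨a, ?_⟩
      ext c
      simp only [mem_filter, mem_univ, true_and, mem_orb, mem_singleton]
      tauto
  · rw [card_eq_zero]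
    ext c
    simp only [mem_filter, mem_univ, true_and, mem_orb, notMem_empty]
    tauto

omit [Fintype α] in
lemma rot_orb (h : ISQ L) {a b : α} (hab : a ≠ b) : Rot L (orb L a b) := by
  have h1 := h.ne_left hab
  have h2 := h.ne_right hab
  constructor
  · intro c d hc
    rcases mem_orb.1 hc with ⟨rfl, rfl⟩ | ⟨rfl, rfl⟩ | ⟨rfl, rfl⟩
    · exact hab
    · exact h2.symm
    · exact h1
  · intro c d hc
    rcases mem_orb.1 hc with ⟨rfl, rfl⟩ | ⟨rfl, rfl⟩ | ⟨rfl, rfl⟩
    · exact mem_orb.2 (Or.inr (Or.inl ⟨rfl, rfl⟩))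
    · exact mem_orb.2 (Or.inr (Or.inr ⟨rfl, h.semi a c⟩))
    · exact mem_orb.2 (Or.inl ⟨rfl, h.lat3 d b⟩)

omit [Fintype α] [DecidableEq α] in
/-- two rotations, backwards -/
lemma Rot.back (h : ISQ L) (hE : Rot L E) {a b : α} (hb : (b, L a b) ∈ E) : (a, b) ∈ E := by
  have h1 := hE.rot hb
  rw [h.semi a b] at h1
  have h2 := hE.rot h1
  rwa [h.lat3 a b] at h2

omit [Fintype α] in
lemma Rot.orb_subset (h : ISQ L) (hE : Rot L E) {a b : α} (hb : (a, b) ∈ E) : orb L a b ⊆ E := by
  rintro ⟨c, d⟩ hc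
  rcases mem_orb.1 hc with ⟨rfl, rfl⟩ | ⟨rfl, rfl⟩ | ⟨rfl, rfl⟩
  · exact hb
  · exact hE.rot hb
  · have := hE.rot (hE.rot hb)
    rwa [h.semi d b] at this

omit [Fintype α] in
lemma Rot.orb_disjoint (h : ISQ L) (hE : Rot L E) {a b : α} (hb : (a, b) ∉ E) : Disjoint E (orb L a b) := by
  rw [disjoint_left]
  rintro ⟨c, d⟩ hcE hc
  apply hb
  rcases mem_orb.1 hc with ⟨rfl, rfl⟩ | ⟨rfl, rfl⟩ | ⟨rfl, rfl⟩
  · exact hcE
  · exact hE.back h hcE
  · have := hE.rot hcE
    rwa [h.lat3 d b] at this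

omit [Fintype α] in
lemma Rot.sdiff (h : ISQ L) (hE : Rot L E) {a b : α} (hab : a ≠ b) : Rot L (E \ orb L a b) := by
  constructor
  · intro c d hc
    exact hE.off (mem_sdiff.1 hc).1
  · intro c d hc
    rw [mem_sdiff] at hc ⊢
    exact ⟨hE.rot hc.1, fun hd => hc.2 ((rot_orb h hab).back h hd)⟩

omit [Fintype α] in
lemma Rot.union {F : Finset (α × α)} (hE : Rot L E) (hF : Rot L F) : Rot L (E ∪ F) := by
  constructor
  · intro c d hc
    rcases mem_union.1 hc with hc | hc
    · exact hE.off hc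
    · exact hF.off hc
  · intro c d hc
    rcases mem_union.1 hc with hc | hc
    · exact mem_union.2 (Or.inl (hE.rot hc))
    · exact mem_union.2 (Or.inr (hF.rot hc))

omit [Fintype α] in
lemma card_orb (h : ISQ L) {a b : α} (hab : a ≠ b) : (orb L a b).card = 3 := by
  have h1 := h.ne_left hab
  have h2 := h.ne_right hab
  unfold orb
  rw [card_insert_of_notMem, card_insert_of_notMem, card_singleton]
  · simp only [mem_singleton, Prod.mk.injEq, not_and]
    intro e
    exact absurd e.symm h2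
  · simp only [mem_insert, mem_singleton, Prod.mk.injEq, not_or, not_and]
    exact ⟨fun e => absurd e hab, fun e => absurd e.symm h1⟩

/-- adding a block -/
lemma add_block (h : ISQ L) (hE : Rot L E) {a b : α} (hab : a ≠ b) (hb : (a, b) ∉ E) :
    Rot L (E ∪ orb L a b) ∧ (∀ v, deg (E ∪ orb L a b) v = deg E v + ind L a b v) ∧
      (E ∪ orb L a b).card = E.card + 3 := by
  refine ⟨hE.union (rot_orb h hab), fun v => ?_, ?_⟩
  · rw [deg_union (hE.orb_disjoint h hb), deg_orb h hab]
  · rw [card_union_of_disjoint (hE.orb_disjoint h hb), card_orb h hab]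

/-- removing a block -/
lemma remove_block (h : ISQ L) (hE : Rot L E) {a b : α} (hb : (a, b) ∈ E) :
    Rot L (E \ orb L a b) ∧ (∀ v, deg (E \ orb L a b) v + ind L a b v = deg E v) ∧
      (E \ orb L a b).card + 3 = E.card := by
  have hab := hE.off hb
  refine ⟨hE.sdiff h hab, fun v => ?_, ?_⟩
  · rw [← deg_orb h hab, deg_sdiff (hE.orb_subset h hb)]
  · rw [← card_orb h hab]
    exact card_sdiff_add_card_eq_card (hE.orb_subset h hb)

/-- exchanging a block of `E` for another one -/
lemma exchange (h : ISQ L) (hE : Rot L E) {a b s t : α} (hb : (a, b) ∈ E) (hst : s ≠ t) (ht : (s, t) ∉ E) :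
    ∃ F : Finset (α × α), Rot L F ∧ (∀ v, deg F v + ind L a b v = deg E v + ind L s t v) ∧ F.card = E.card ∧
      ∀ {c d}, (c, d) ∈ E → (c, d) ∉ orb L a b → (c, d) ∈ F := by
  obtain ⟨h1, h2, h3⟩ := remove_block h hE hb
  have ht' : (s, t) ∉ E \ orb L a b := fun hc => ht (mem_sdiff.1 hc).1
  obtain ⟨h4, h5, h6⟩ := add_block h h1 hst ht'
  refine ⟨_, h4, fun v => ?_, ?_, ?_⟩
  · rw [h5 v, ← h2 v]
    ring
  · omega
  · intro c d hc hd
    exact mem_union.2 (Or.inl (mem_sdiff.2 ⟨hc, hd⟩))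

/-! ### Double counting -/

lemma sum_row (E : Finset (α × α)) (f : α → ℕ) : ∑ c ∈ E, f c.1 = ∑ v, f v * deg E v := by
  have h1 : ∑ c ∈ E, f c.1 = ∑ c : α × α, if c ∈ E then f c.1 else 0 := by
    rw [← sum_filter]
    congr 1
    ext c
    simp
  rw [h1, Fintype.sum_prod_type]
  refine sum_congr rfl fun v _ => ?_
  rw [← sum_filter]
  simp only [deg, sum_const, smul_eq_mul]
  ring

lemma sum_all (h : ISQ L) (hE : Rot L E) (f : α → ℕ) :
    ∑ c ∈ E, (f c.1 + f c.2 + f (L c.1 c.2)) = 3 * ∑ v, f v * deg E v := by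
  have hρ : ∀ g : α × α → ℕ, ∑ c ∈ E, g (c.2, L c.1 c.2) = ∑ c ∈ E, g c := by
    intro g
    refine sum_nbij' (fun c => (c.2, L c.1 c.2)) (fun c => (L c.1 c.2, c.1)) ?_ ?_ ?_ ?_ ?_
    · rintro ⟨a, b⟩ hc
      exact hE.rot hc
    · rintro ⟨a, b⟩ hc
      have := hE.rot (hE.rot hc)
      rwa [h.semi a b] at this
    · rintro ⟨a, b⟩ hc
      simp only
      rw [h.semi a b]
    · rintro ⟨a, b⟩ hc
      simp only
      rw [h.lat3 a b]
    · rintro ⟨a, b⟩ hc
      rfl
  have h2 : ∑ c ∈ E, f c.2 = ∑ c ∈ E, f c.1 := hρ fun c => f c.1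
  have h3 : ∑ c ∈ E, f (L c.1 c.2) = ∑ c ∈ E, f c.2 := hρ fun c => f c.2
  rw [sum_add_distrib, sum_add_distrib, h3, h2, sum_row]
  ring

end Pool.Agent.Semi79
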