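import Pool.Agent.Semi79.Step

/-!
# The local structure at a point of degree one
-/

namespace Pool.Agent.Semi79

open Finset

variable {α : Type*} [Fintype α] [DecidableEq α] {L : α → α → α} {E : Finset (α × α)} {x : α}

/-- the structure around a point `p` of degree one with its neighbours `q, q'` -/
structure S4 (L : α → α → α) (E : Finset (α × α)) (x p q q' : α) : Prop where
  adj : Adj E p q
  adj' : Adj E p q'
  pq : L p q = q'
  pq' : L p q' = q
  ne : q ≠ q'
  deg : deg E (L x q) = 1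
  deg' : Semi79.deg E (L x q') = 1
  nep : L x q ≠ p
  nep' : L x q' ≠ p
  cross : Adj E (L x q) q'
  cross' : Adj E (L x q') q
  inv : L x (L x q) = q
  inv' : L x (L x q') = q'
  blk : L p (L x q) = L x q'
  blk' : L p (L x q') = L x q

omit [Fintype α] [DecidableEq α] in
lemma adj_of_cell {p q : α} (hq : (p, q) ∈ E) : Adj E p q := Or.inl hq

section

variable (h : ISQ L) (hE : Best L E) (hx : deg E x = 0)
include h hE hx

/-- what an exchange inside the set of admissible blocks through `p` gives -/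
lemma core {p b : α} (hp : deg E p = 1) (hb : (p, b) ∈ E) {y : α} (hyp : y ≠ p)
    (ok1 : deg E y = 2 → y = b ∨ y = L p b) (ok2 : deg E (L p y) = 2 → L p y = b ∨ L p y = L p b) (hyb : y ≠ b) :
    (y = L p b ∧ L p y = b) ∨
    (deg E (L x b) = 1 ∧ deg E (L x (L p b)) = 1 ∧ L x b ≠ p ∧ L x (L p b) ≠ p ∧
      Adj E (L x b) (L p b) ∧ Adj E (L x (L p b)) b ∧ L x (L x b) = b ∧ L x (L x (L p b)) = L p b ∧
      ((y = L x b ∧ L p y = L x (L p b)) ∨ (y = L x (L p b) ∧ L p y = L x b))) := by
  have hf := facts h hE hx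
  obtain ⟨c, hc⟩ : ∃ c, c = L p b := ⟨_, rfl⟩
  rw [← hc] at ok1 ok2 ⊢
  obtain ⟨z, hz⟩ : ∃ z, z = L p y := ⟨_, rfl⟩
  rw [← hz] at ok2 ⊢
  have hx1 := hf.x1 hb
  rw [← hc] at hx1
  have hb2 : deg E b = 2 := by omega
  have hc2 : deg E c = 2 := by omega
  have hadj : ∀ {w}, (w = b ∨ w = c) → Adj E p w := fun {w} hw => by
    rw [adj_iff h hE.toRot hp hb, ← hc]
    exact hw
  have hpb : p ≠ b := by rintro rfl; omega
  have hpc : p ≠ c := by rintro rfl; omega
  have hbc : b ≠ c := by rw [hc]; exact (h.ne_right hpb).symm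
  have hpx : p ≠ x := by rintro rfl; omega
  have hxb : x ≠ b := by rintro rfl; omega
  have hxc : x ≠ c := by rintro rfl; omega
  have hzp : z ≠ p := by rw [hz]; exact h.ne_left hyp.symm
  have hzy : z ≠ y := by rw [hz]; exact h.ne_right hyp.symm
  -- the block does not contain `x`
  have hyx : y ≠ x := by
    intro e
    have e1 : L x z = p := by rw [hz, e]; exact h.semi p x
    have hzx : z ≠ x := fun e' => by
      rw [e', h.idem] at e1
      exact hpx e1.symm
    have := hf.x2 z hzx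
    rw [e1] at this
    have hz2 : deg E z = 2 := by omega
    exact (no_cover h hE hx hp (hadj (ok2 hz2))).1 e1
  have hzx : z ≠ x := by
    intro e
    have e1 : L x p = y := by rw [← e, hz]; exact h.lat3 p y
    have := hf.x2 p hpx
    rw [e1] at this
    have hy2 : deg E y = 2 := by omega
    exact (no_cover h hE hx hp (hadj (ok1 hy2))).2 e1
  -- the exchange
  have hnot : (p, y) ∉ E := fun hy => hyb (uniq hp hy hb)
  obtain ⟨F, hF, hdeg, hcard, hsub⟩ := exchange h hE.toRot hb hyp.symm hnot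
  have i1 : ∀ v, (v = p ∨ v = b ∨ v = c) → ind L p b v = 1 := fun v hv => ind_eq_one (by rw [← hc]; exact hv)
  have i0 : ∀ v, v ≠ p → v ≠ b → v ≠ c → ind L p b v = 0 := fun v h1 h2 h3 =>
    ind_eq_zero h1 h2 (by rw [← hc]; exact h3)
  have j1 : ∀ v, (v = p ∨ v = y ∨ v = z) → ind L p y v = 1 := fun v hv => ind_eq_one (by rw [← hz]; exact hv)
  have j0 : ∀ v, v ≠ p → v ≠ y → v ≠ z → ind L p y v = 0 := fun v h1 h2 h3 =>
    ind_eq_zero h1 h2 (by rw [← hz]; exact h3)
  -- points where the degree drops or grows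
  have drop : ∀ v, deg F v < deg E v → (v = b ∨ v = c) ∧ v ≠ y ∧ v ≠ z := by
    intro v hlt
    have e := hdeg v
    by_cases hv1 : v = p ∨ v = b ∨ v = c
    · rw [i1 v hv1] at e
      by_cases hv2 : v = p ∨ v = y ∨ v = z
      · rw [j1 v hv2] at e
        omega
      · push Not at hv2
        exact ⟨hv1.resolve_left hv2.1, hv2.2.1, hv2.2.2⟩
    · push Not at hv1
      rw [i0 v hv1.1 hv1.2.1 hv1.2.2] at e
      omega
  have grow : ∀ v, deg E v < deg F v → (v = y ∨ v = z) ∧ v ≠ b ∧ v ≠ c := by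
    intro v hlt
    have e := hdeg v
    by_cases hv2 : v = p ∨ v = y ∨ v = z
    · rw [j1 v hv2] at e
      by_cases hv1 : v = p ∨ v = b ∨ v = c
      · rw [i1 v hv1] at e
        omega
      · push Not at hv1
        exact ⟨hv2.resolve_left hv1.1, hv1.2.1, hv1.2.2⟩
    · push Not at hv2
      rw [j0 v hv2.1 hv2.2.1 hv2.2.2] at e
      omega
  have dropP : ∀ v, (v = b ∨ v = c) → v ≠ y → v ≠ z → deg F v = 1 := by
    intro v hv hvy hvz
    have e := hdeg v
    have hvp : v ≠ p := by
      rcases hv with rfl | rfl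
      · exact hpb.symm
      · exact hpc.symm
    have hv2 : deg E v = 2 := by
      rcases hv with rfl | rfl
      · exact hb2
      · exact hc2
    rw [i1 v (Or.inr hv), j0 v hvp hvy hvz] at e
    omega
  have growQ : ∀ v, (v = y ∨ v = z) → v ≠ b → v ≠ c → deg E v = 1 ∧ deg F v = 2 ∧ v ≠ p := by
    intro v hv hvb hvc
    have e := hdeg v
    have hvp : v ≠ p := by
      rcases hv with rfl | rfl
      · exact hyp
      · exact hzp
    have hvx : v ≠ x := by
      rcases hv with rfl | rfl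
      · exact hyx
      · exact hzx
    have hv1 : deg E v = 1 := by
      refine (hf.deg v hvx).resolve_right fun e2 => ?_
      rcases hv with rfl | rfl
      · exact (ok1 e2).elim hvb hvc
      · exact (ok2 e2).elim hvb hvc
    rw [i0 v hvp hvb hvc, j1 v (Or.inr hv)] at e
    exact ⟨hv1, by omega, hvp⟩
  -- `F` is extremal as well
  have hFx : deg F x = 0 := by
    have e := hdeg x
    rw [i0 x hpx.symm hxb hxc, j0 x hpx.symm hyx.symm hzx.symm, hx] at e
    omega
  have hFpos : ∀ v, v ≠ x → 1 ≤ deg F v := by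
    intro v hv
    by_contra hlt
    have hv0 : deg F v = 0 := by omega
    have := hf.deg v hv
    have h1 := drop v (by omega)
    have := dropP v h1.1 h1.2.1 h1.2.2
    omega
  have hFle : ∀ v, deg F v ≤ 2 := by
    intro v
    by_contra hlt
    have := hE.le2 v
    have h1 := grow v (by omega)
    have := growQ v h1.1 h1.2.1 h1.2.2
    omega
  have hFB : Best L F := best_of hE hf hF hFle hFpos hFx hcard
  have hfF := facts h hFB hFx
  -- the three rules
  have r1 : ∀ w, (w = b ∨ w = c) → w ≠ y → w ≠ z → (L x w = y ∨ L x w = z) ∧ L x w ≠ b ∧ L x w ≠ c := by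
    intro w hw hwy hwz
    have hwx : w ≠ x := by
      rcases hw with rfl | rfl
      · exact hxb.symm
      · exact hxc.symm
    have hw2 : deg E w = 2 := by
      rcases hw with rfl | rfl
      · exact hb2
      · exact hc2
    have e1 := dropP w hw hwy hwz
    have e2 := hf.x2 w hwx
    have e3 := hfF.x2 w hwx
    exact grow _ (by omega)
  have r2 : ∀ v, (v = y ∨ v = z) → v ≠ b → v ≠ c → ∃ w, (w = b ∨ w = c) ∧ w ≠ y ∧ w ≠ z ∧ Adj E v w := by
    intro v hv hvb hvc
    obtain ⟨d1, d2, hvp⟩ := growQ v hv hvb hvc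
    obtain ⟨a, ha⟩ := exists_cell d1
    have haF : (v, a) ∈ F := hsub ha fun hc' => by
      rw [mem_orb, ← hc] at hc'
      tauto
    have e1 := hf.x1 ha
    have e2 := hfF.x1 haF
    have : deg F a = 1 ∨ deg F (L v a) = 1 := by omega
    rcases this with e | e
    · have := drop a (by omega)
      exact ⟨a, this.1, this.2.1, this.2.2, Or.inl ha⟩
    · have := drop (L v a) (by omega)
      exact ⟨L v a, this.1, this.2.1, this.2.2, (adj_iff h hE.toRot d1 ha).2 (Or.inr rfl)⟩
  have r3 : ∀ v, (v = y ∨ v = z) → v ≠ b → v ≠ c → (L x v = b ∨ L x v = c) ∧ L x v ≠ y ∧ L x v ≠ z := by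
    intro v hv hvb hvc
    obtain ⟨d1, d2, hvp⟩ := growQ v hv hvb hvc
    have hvx : v ≠ x := by rintro rfl; omega
    have e2 := hf.x2 v hvx
    have e3 := hfF.x2 v hvx
    exact drop _ (by omega)
  -- a block with exactly one of its two points among `b, c` leads to a full cover
  have one : ∀ v s s', (v = y ∨ v = z) → (s = y ∨ s = z) → (s = b ∧ s' = c ∨ s = c ∧ s' = b) → v ≠ b → v ≠ c →
      False := by
    intro v s s' hv hs hss hvb hvc
    obtain ⟨w, hw, hwy, hwz, hvw⟩ := r2 v hv hvb hvc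
    obtain ⟨hu, huy, huz⟩ := r3 v hv hvb hvc
    have hws : w ≠ s := by rcases hs with rfl | rfl <;> assumption
    have hus : L x v ≠ s := by rcases hs with rfl | rfl <;> assumption
    have e1 : w = s' := by
      rcases hss with ⟨rfl, rfl⟩ | ⟨rfl, rfl⟩
      · exact hw.resolve_left hws
      · exact hw.resolve_right hws
    have e2 : L x v = s' := by
      rcases hss with ⟨rfl, rfl⟩ | ⟨rfl, rfl⟩
      · exact hu.resolve_left hus
      · exact hu.resolve_right hus
    obtain ⟨d1, -, -⟩ := growQ v hv hvb hvc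
    exact (no_cover h hE hx d1 hvw).2 (e2.trans e1.symm)
  by_cases hyc : y = c
  · by_cases hzb : z = b
    · exact Or.inl ⟨hyc, hzb⟩
    · exfalso
      exact one z y b (Or.inr rfl) (Or.inl rfl) (Or.inr ⟨hyc, rfl⟩) hzb fun e => hzy (e.trans hyc.symm)
  · right
    have hzb : z ≠ b := fun e => one y z c (Or.inl rfl) (Or.inr rfl) (Or.inl ⟨e, rfl⟩) hyb hyc
    have hzc : z ≠ c := fun e => one y z b (Or.inl rfl) (Or.inr rfl) (Or.inr ⟨e, rfl⟩) hyb hyc
    obtain ⟨u1, u2, u3⟩ := r1 b (Or.inl rfl) hyb.symm hzb.symm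
    obtain ⟨v1, v2, v3⟩ := r1 c (Or.inr rfl) (Ne.symm hyc) hzc.symm
    obtain ⟨d1, -, n1⟩ := growQ _ u1 u2 u3
    obtain ⟨d2, -, n2⟩ := growQ _ v1 v2 v3
    obtain ⟨w1, hw1, -, -, a1⟩ := r2 _ u1 u2 u3
    obtain ⟨w2, hw2, -, -, a2⟩ := r2 _ v1 v2 v3
    obtain ⟨t1, -, -⟩ := r3 _ u1 u2 u3
    obtain ⟨t2, -, -⟩ := r3 _ v1 v2 v3
    have f1 : w1 = c := hw1.resolve_left fun e => by
      rw [e] at a1
      exact (no_cover h hE hx d1 a1).1 rfl
    have f2 : w2 = b := hw2.resolve_right fun e => by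
      rw [e] at a2
      exact (no_cover h hE hx d2 a2).1 rfl
    rw [f1] at a1
    rw [f2] at a2
    have g1 : L x (L x b) = b := t1.resolve_right fun e => (no_cover h hE hx d1 a1).2 e
    have g2 : L x (L x c) = c := t2.resolve_left fun e => (no_cover h hE hx d2 a2).2 e
    refine ⟨d1, d2, n1, n2, a1, a2, g1, g2, ?_⟩
    have hne : L x b ≠ L x c := fun e => hbc (h.inj_left e)
    rcases u1 with u1 | u1 <;> rcases v1 with v1 | v1
    · exact absurd (u1.trans v1.symm) hne
    · exact Or.inl ⟨u1.symm, v1.symm⟩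
    · exact Or.inr ⟨v1.symm, u1.symm⟩
    · exact absurd (u1.trans v1.symm) hne

end

end Pool.Agent.Semi79
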