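import Pool.Agent.Semi79.Final
import Pool.Agent.Duplex38.Defs

/-!
# Idempotent semisymmetric latin squares have duplexes
-/

namespace Pool.Agent.Semi79

open Finset Pool.Agent.Duplex38

variable {α : Type*} [Fintype α] [DecidableEq α] {L : α → α → α} {E : Finset (α × α)} {x : α}

/-- a rotation-closed set which covers every point once or twice gives a duplex -/
lemma duplex_of_cover (h : ISQ L) (hE : Rot L E) (h1 : ∀ v, 1 ≤ deg E v) (h2 : ∀ v, deg E v ≤ 2) :
    ∃ D : Set (α × α), IsDuplex L D := by
  -- columns and symbols of `E`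
  have hcol : ∀ v, (univ.filter fun a => (a, v) ∈ E).card = deg E v := by
    intro v
    refine card_bij' (fun a _ => L a v) (fun b _ => L v b) ?_ ?_ ?_ ?_
    · intro a ha
      simp only [mem_filter, mem_univ, true_and] at ha ⊢
      exact hE.rot ha
    · intro b hb
      simp only [mem_filter, mem_univ, true_and] at hb ⊢
      have := hE.rot (hE.rot hb)
      rwa [h.semi v b] at this
    · intro a _
      exact h.semi a v
    · intro b _
      exact h.lat3 v b
  have hsym : ∀ v, (E.filter fun c => L c.1 c.2 = v).card = deg E v := by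
    intro v
    refine card_bij' (fun c _ => c.1) (fun b _ => (b, L v b)) ?_ ?_ ?_ ?_
    · rintro ⟨a, b⟩ hc
      simp only [mem_filter, mem_univ, true_and] at hc ⊢
      have := hE.rot (hE.rot hc.1)
      rw [h.semi a b, hc.2] at this
      exact this
    · intro b hb
      simp only [mem_filter, mem_univ, true_and] at hb ⊢
      exact ⟨hE.rot hb, h.semi v b⟩
    · rintro ⟨a, b⟩ hc
      simp only [mem_filter] at hc
      simp only
      rw [← hc.2, h.lat3 a b]
    · intro b _
      rfl
  have hoff : ∀ v, (v, v) ∉ E := fun v hv => hE.off hv rfl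
  refine ⟨{c | c ∈ E ∨ (c.1 = c.2 ∧ deg E c.1 = 1)}, ?_, ?_, ?_⟩
  · intro v
    have e : {c | (v, c) ∈ {c : α × α | c ∈ E ∨ (c.1 = c.2 ∧ deg E c.1 = 1)}} =
        ((univ.filter fun b => (v, b) ∈ E) ∪ (univ.filter fun b => v = b ∧ deg E v = 1) : Finset α) := by
      ext c
      simp
    rw [e, Set.ncard_coe_finset, card_union_of_disjoint]
    · have h3 : (univ.filter fun b => (v, b) ∈ E).card = deg E v := rfl
      have h4 := h1 v
      have h5 := h2 v
      by_cases hv : deg E v = 1
      · have : (univ.filter fun b => v = b ∧ deg E v = 1) = {v} := by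
          ext c
          simp [hv, eq_comm]
        rw [this, h3, hv, card_singleton]
      · have : (univ.filter fun b => v = b ∧ deg E v = 1) = ∅ := by
          ext c
          simp [hv]
        rw [this, h3, card_empty]
        omega
    · rw [disjoint_left]
      intro c hc hc'
      simp only [mem_filter, mem_univ, true_and] at hc hc'
      rw [← hc'.1] at hc
      exact hoff v hc
  · intro v
    have e : {r | (r, v) ∈ {c : α × α | c ∈ E ∨ (c.1 = c.2 ∧ deg E c.1 = 1)}} =
        ((univ.filter fun a => (a, v) ∈ E) ∪ (univ.filter fun a => a = v ∧ deg E a = 1) : Finset α) := by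
      ext c
      simp
    rw [e, Set.ncard_coe_finset, card_union_of_disjoint]
    · have h3 := hcol v
      have h4 := h1 v
      have h5 := h2 v
      by_cases hv : deg E v = 1
      · have : (univ.filter fun a => a = v ∧ deg E a = 1) = {v} := by
          ext c
          simp only [mem_filter, mem_univ, true_and, mem_singleton]
          constructor
          · exact fun hc => hc.1
          · rintro rfl
            exact ⟨rfl, hv⟩
        rw [this, h3, hv, card_singleton]
      · have : (univ.filter fun a => a = v ∧ deg E a = 1) = ∅ := by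
          ext c
          simp only [mem_filter, mem_univ, true_and, notMem_empty, iff_false, not_and]
          rintro rfl
          exact hv
        rw [this, h3, card_empty]
        omega
    · rw [disjoint_left]
      intro c hc hc'
      simp only [mem_filter, mem_univ, true_and] at hc hc'
      rw [hc'.1] at hc
      exact hoff v hc
  · intro v
    have e : {c | c ∈ {c : α × α | c ∈ E ∨ (c.1 = c.2 ∧ deg E c.1 = 1)} ∧ L c.1 c.2 = v} =
        ((E.filter fun c => L c.1 c.2 = v) ∪ (univ.filter fun c : α × α => c = (v, v) ∧ deg E v = 1) :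
          Finset (α × α)) := by
      ext ⟨a, b⟩
      simp only [Set.mem_ofPred_eq, coe_union, coe_filter, mem_univ, true_and, Set.mem_union, Prod.mk.injEq]
      constructor
      · rintro ⟨hc | hc, hv⟩
        · exact Or.inl ⟨hc, hv⟩
        · obtain ⟨rfl, hd⟩ := hc
          rw [h.idem] at hv
          subst hv
          exact Or.inr ⟨⟨rfl, rfl⟩, hd⟩
      · rintro (⟨hc, hv⟩ | ⟨⟨rfl, rfl⟩, hd⟩)
        · exact ⟨Or.inl hc, hv⟩
        · exact ⟨Or.inr ⟨rfl, hd⟩, h.idem _⟩
    rw [e, Set.ncard_coe_finset, card_union_of_disjoint]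
    · have h3 := hsym v
      have h4 := h1 v
      have h5 := h2 v
      by_cases hv : deg E v = 1
      · have : (univ.filter fun c : α × α => c = (v, v) ∧ deg E v = 1) = {(v, v)} := by
          ext c
          simp [hv]
        rw [this, h3, hv, card_singleton]
      · have : (univ.filter fun c : α × α => c = (v, v) ∧ deg E v = 1) = ∅ := by
          ext c
          simp [hv]
        rw [this, h3, card_empty]
        omega
    · rw [disjoint_left]
      rintro ⟨a, b⟩ hc hc'
      simp only [mem_filter, mem_univ, true_and, Prod.mk.injEq] at hc hc'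
      rw [hc'.1.1, hc'.1.2] at hc
      exact hoff v hc.1

omit [Fintype α] [DecidableEq α] in
/-- two disjoint transversals form a duplex -/
lemma duplex_of_transversals {π ρ : Equiv.Perm α} (hne : ∀ v, π v ≠ ρ v)
    (b1 : Function.Bijective fun v => L v (π v)) (b2 : Function.Bijective fun v => L v (ρ v)) :
    ∃ D : Set (α × α), IsDuplex L D := by
  refine ⟨{c | c.2 = π c.1 ∨ c.2 = ρ c.1}, ?_, ?_, ?_⟩
  · intro v
    have e : {c | (v, c) ∈ {c : α × α | c.2 = π c.1 ∨ c.2 = ρ c.1}} = {π v, ρ v} := by
      ext c
      simp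
    rw [e, Set.ncard_pair (hne v)]
  · intro v
    have e : {r | (r, v) ∈ {c : α × α | c.2 = π c.1 ∨ c.2 = ρ c.1}} = {π.symm v, ρ.symm v} := by
      ext c
      simp only [Set.mem_ofPred_eq, Set.mem_insert_iff, Set.mem_singleton_iff, Equiv.eq_symm_apply]
      rw [eq_comm, @eq_comm _ v (ρ c)]
    rw [e, Set.ncard_pair]
    intro e'
    apply hne (π.symm v)
    rw [Equiv.apply_symm_apply, e', Equiv.apply_symm_apply]
  · intro s
    obtain ⟨v, hv⟩ := b1.2 s
    obtain ⟨w, hw⟩ := b2.2 s
    simp only at hv hw
    have e : {c | c ∈ {c : α × α | c.2 = π c.1 ∨ c.2 = ρ c.1} ∧ L c.1 c.2 = s} = {(v, π v), (w, ρ w)} := by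
      ext ⟨a, b⟩
      simp only [Set.mem_ofPred_eq, Set.mem_insert_iff, Set.mem_singleton_iff, Prod.mk.injEq]
      constructor
      · rintro ⟨rfl | rfl, hs⟩
        · left
          have : a = v := b1.1 (hs.trans hv.symm)
          exact ⟨this, by rw [this]⟩
        · right
          have : a = w := b2.1 (hs.trans hw.symm)
          exact ⟨this, by rw [this]⟩
      · rintro (⟨rfl, rfl⟩ | ⟨rfl, rfl⟩)
        · exact ⟨Or.inl rfl, hv⟩
        · exact ⟨Or.inr rfl, hw⟩
    rw [e, Set.ncard_pair]
    rw [Ne, Prod.mk.injEq]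
    rintro ⟨rfl, e'⟩
    exact hne v e'

/-- an idempotent semisymmetric latin square of order at least two has a duplex -/
theorem exists_duplex (h : ISQ L) (hn : 2 ≤ Fintype.card α) : ∃ D : Set (α × α), IsDuplex L D := by
  obtain ⟨E, hE⟩ := exists_best L
  by_cases hall : ∀ v, deg E v ≠ 0
  · exact duplex_of_cover h hE.toRot (fun v => Nat.one_le_iff_ne_zero.2 (hall v)) hE.le2
  · push Not at hall
    obtain ⟨x, hx⟩ := hall
    obtain ⟨h7, e, he, hL⟩ := fano h hE hx hn
    have hbij : Function.Bijective e := by
      rw [Fintype.bijective_iff_injective_and_card]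
      exact ⟨he, by rw [h7, Fintype.card_fin]⟩
    let e' : Fin 7 ≃ α := Equiv.ofBijective e hbij
    let ρ : Equiv.Perm α := e'.symm.trans ((Equiv.addRight (1 : Fin 7)).trans e')
    have hρ : ∀ i, ρ (e i) = e (i + 1) := by
      intro i
      have : e'.symm (e i) = i := e'.symm_apply_apply i
      simp only [ρ, Equiv.trans_apply, this]
      rfl
    refine duplex_of_transversals (π := Equiv.refl α) (ρ := ρ) ?_ ?_ ?_
    · intro v
      obtain ⟨i, rfl⟩ := hbij.2 v
      rw [hρ, Equiv.refl_apply]
      intro e1
      have h1 : i = i + 1 := he e1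
      clear e1
      revert i
      decide
    · have : (fun v => L v (Equiv.refl α v)) = id := by
        funext v
        exact h.idem v
      rw [this]
      exact Function.bijective_id
    · rw [← Finite.injective_iff_bijective]
      intro v w hvw
      obtain ⟨i, rfl⟩ := hbij.2 v
      obtain ⟨j, rfl⟩ := hbij.2 w
      simp only [hρ, hL] at hvw
      have := he hvw
      rw [add_right_cancel this]

omit [Fintype α] [DecidableEq α] in
/-- duplexes are carried by isotopisms -/
lemma duplex_of_isotopic {R C S : Type*} {T : R → C → S} (f : R ≃ α) (g : C ≃ α) (k : S ≃ α)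
    (hT : ∀ r c, k (T r c) = L (f r) (g c)) {D : Set (α × α)} (hD : IsDuplex L D) :
    ∃ D' : Set (R × C), IsDuplex T D' := by
  refine ⟨{x | (f x.1, g x.2) ∈ D}, ?_, ?_, ?_⟩
  · intro r
    rw [← hD.1 (f r), ← Set.ncard_image_of_injective _ g.injective]
    congr 1
    ext c
    simp only [Set.mem_image, Set.mem_ofPred_eq]
    constructor
    · rintro ⟨c, hc, rfl⟩
      exact hc
    · intro hc
      exact ⟨g.symm c, by rwa [g.apply_symm_apply], g.apply_symm_apply c⟩
  · intro c
    rw [← hD.2.1 (g c), ← Set.ncard_image_of_injective _ f.injective]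
    congr 1
    ext r
    simp only [Set.mem_image, Set.mem_ofPred_eq]
    constructor
    · rintro ⟨r, hr, rfl⟩
      exact hr
    · intro hr
      exact ⟨f.symm r, by rwa [f.apply_symm_apply], f.apply_symm_apply r⟩
  · intro s
    have hinj : Function.Injective fun x : R × C => (f x.1, g x.2) := by
      rintro ⟨a, b⟩ ⟨c, d⟩ e
      simp only [Prod.mk.injEq] at e
      rw [f.injective e.1, g.injective e.2]
    rw [← hD.2.2 (k s), ← Set.ncard_image_of_injective _ hinj]
    congr 1
    ext ⟨a, b⟩
    simp only [Set.mem_image, Set.mem_ofPred_eq, Prod.mk.injEq, Prod.exists]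
    constructor
    · rintro ⟨r, c, ⟨hm, hs⟩, rfl, rfl⟩
      exact ⟨hm, by rw [← hT, hs]⟩
    · rintro ⟨hm, hs⟩
      refine ⟨f.symm a, g.symm b, ⟨?_, ?_⟩, f.apply_symm_apply a, g.apply_symm_apply b⟩
      · rwa [f.apply_symm_apply, g.apply_symm_apply]
      · apply k.injective
        rw [hT, f.apply_symm_apply, g.apply_symm_apply, hs]

end Pool.Agent.Semi79
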