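import Pool.Agent.Semi79.Basic

/-!
# The extremal sets
-/

namespace Pool.Agent.Semi79

open Finset

variable {α : Type*} [Fintype α] [DecidableEq α] {L : α → α → α} {E : Finset (α × α)}

/-- the family: rotation-closed, off-diagonal, every row count at most two -/
structure Fam (L : α → α → α) (E : Finset (α × α)) : Prop extends Rot L E where
  le2 : ∀ v, deg E v ≤ 2

/-- the number of uncovered points -/
def unc (E : Finset (α × α)) : ℕ := (univ.filter fun v => deg E v = 0).card

/-- a member with as few uncovered points as possible and then as few cells as possible -/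
structure Best (L : α → α → α) (E : Finset (α × α)) : Prop extends Fam L E where
  best : ∀ F, Fam L F → unc E ≤ unc F ∧ (unc F = unc E → E.card ≤ F.card)

lemma exists_best (L : α → α → α) : ∃ E : Finset (α × α), Best L E := by
  classical
  let S : Finset (Finset (α × α)) := univ.filter fun E => Fam L E
  have h0 : (∅ : Finset (α × α)) ∈ S := by
    simp only [S, mem_filter, mem_univ, true_and]
    refine ⟨⟨?_, ?_⟩, ?_⟩
    · intro a b h
      exact absurd h (notMem_empty _)
    · intro a b h
      exact absurd h (notMem_empty _)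
    · intro v
      simp [deg]
  obtain ⟨E, hE, hmin⟩ := S.exists_min_image (fun E => unc E * (Fintype.card (α × α) + 1) + E.card) ⟨_, h0⟩
  simp only [S, mem_filter, mem_univ, true_and] at hE hmin
  refine ⟨E, hE, fun F hF => ?_⟩
  have h1 := hmin F hF
  have hF' : F.card ≤ Fintype.card (α × α) := card_le_univ F
  refine ⟨?_, fun e => ?_⟩
  · by_contra hlt
    push Not at hlt
    have h2 : (unc F + 1) * (Fintype.card (α × α) + 1) ≤ unc E * (Fintype.card (α × α) + 1) :=
      Nat.mul_le_mul_right _ hlt
    rw [add_mul] at h2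
    omega
  · rw [e] at h1
    omega

omit [Fintype α] in
lemma ind_eq_one {a b v : α} (hv : v = a ∨ v = b ∨ v = L a b) : ind L a b v = 1 := if_pos hv

omit [Fintype α] in
lemma ind_eq_zero {a b v : α} (h1 : v ≠ a) (h2 : v ≠ b) (h3 : v ≠ L a b) : ind L a b v = 0 :=
  if_neg (by tauto)

omit [Fintype α] in
lemma ind_le {a b v : α} : ind L a b v ≤ 1 := by
  unfold ind
  split_ifs <;> omega

lemma deg_pos_left {a b : α} (hb : (a, b) ∈ E) : 1 ≤ deg E a :=
  card_pos.2 ⟨b, by simpa using hb⟩

section

variable (h : ISQ L) (hE : Best L E) {x : α} (hx : deg E x = 0)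
include h hE

omit h in
lemma deg_pos3 {a b : α} (hb : (a, b) ∈ E) : 1 ≤ deg E a ∧ 1 ≤ deg E b ∧ 1 ≤ deg E (L a b) :=
  ⟨deg_pos_left hb, deg_pos_left (hE.rot hb), deg_pos_left (hE.rot (hE.rot hb))⟩

/-- every block of `E` has a point of degree one -/
lemma fact2 {a b : α} (hb : (a, b) ∈ E) : deg E a = 1 ∨ deg E b = 1 ∨ deg E (L a b) = 1 := by
  by_contra hcon
  push Not at hcon
  obtain ⟨c1, c2, c3⟩ := hcon
  obtain ⟨p1, p2, p3⟩ := deg_pos3 hE hb
  obtain ⟨h1, h2, h3⟩ := remove_block h hE.toRot hb
  have hF : Fam L (E \ orb L a b) := ⟨h1, fun v => by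
    have := h2 v
    have := hE.le2 v
    omega⟩
  have hu : unc (E \ orb L a b) = unc E := by
    unfold unc
    congr 1
    ext v
    simp only [mem_filter, mem_univ, true_and]
    have e := h2 v
    by_cases hv : v = a ∨ v = b ∨ v = L a b
    · rw [ind_eq_one hv] at e
      have : deg E v ≠ 1 ∧ 1 ≤ deg E v := by
        rcases hv with rfl | rfl | rfl
        · exact ⟨c1, p1⟩
        · exact ⟨c2, p2⟩
        · exact ⟨c3, p3⟩
      omega
    · push Not at hv
      rw [ind_eq_zero hv.1 hv.2.1 hv.2.2] at e
      omega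
  have := (hE.best _ hF).2 hu
  omega

include hx

omit h hE in
lemma notMem_left (y : α) : (x, y) ∉ E := fun hb => by
  have := deg_pos_left hb
  omega

/-- every block through an uncovered point has a point of degree two -/
lemma fact1 {y : α} (hy : x ≠ y) : deg E y = 2 ∨ deg E (L x y) = 2 := by
  by_contra hcon
  push Not at hcon
  obtain ⟨c1, c2⟩ := hcon
  obtain ⟨h1, h2, h3⟩ := add_block h hE.toRot hy (notMem_left hx y)
  have hF : Fam L (E ∪ orb L x y) := ⟨h1, fun v => by
    have e := h2 v
    have e' := hE.le2 v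
    by_cases hv : v = x ∨ v = y ∨ v = L x y
    · rw [ind_eq_one hv] at e
      rcases hv with rfl | rfl | rfl
      · omega
      · omega
      · omega
    · push Not at hv
      rw [ind_eq_zero hv.1 hv.2.1 hv.2.2] at e
      omega⟩
  have hu : unc (E ∪ orb L x y) < unc E := by
    unfold unc
    apply card_lt_card
    rw [ssubset_iff_of_subset]
    · refine ⟨x, by simpa using hx, ?_⟩
      simp only [mem_filter, mem_univ, true_and]
      rw [h2, ind_eq_one (Or.inl rfl)]
      omega
    · intro v
      simp only [mem_filter, mem_univ, true_and]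
      rw [h2]
      omega
  have := (hE.best _ hF).1
  omega

end

/-- what equality in the double counting gives -/
structure Facts (L : α → α → α) (E : Finset (α × α)) (x : α) : Prop where
  deg : ∀ v, v ≠ x → deg E v = 1 ∨ deg E v = 2
  x1 : ∀ {a b}, (a, b) ∈ E →
    (Semi79.deg E a = 1 ∧ Semi79.deg E b = 2 ∧ Semi79.deg E (L a b) = 2) ∨
    (Semi79.deg E a = 2 ∧ Semi79.deg E b = 1 ∧ Semi79.deg E (L a b) = 2) ∨
    (Semi79.deg E a = 2 ∧ Semi79.deg E b = 2 ∧ Semi79.deg E (L a b) = 1)
  x2 : ∀ y, y ≠ x → (Semi79.deg E y = 1 ∧ Semi79.deg E (L x y) = 2) ∨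
    (Semi79.deg E y = 2 ∧ Semi79.deg E (L x y) = 1)
  c1 : 2 * (univ.filter fun v => Semi79.deg E v = 1).card + 1 = Fintype.card α
  c2 : 2 * (univ.filter fun v => Semi79.deg E v = 2).card + 1 = Fintype.card α
  unc : unc E = 1

lemma card_eq (E : Finset (α × α)) : E.card = ∑ v, deg E v := by
  have := sum_row E fun _ => 1
  simpa using this

/-- the double counting -/
lemma facts (h : ISQ L) (hE : Best L E) {x : α} (hx : deg E x = 0) : Facts L E x := by
  -- the three classes
  set w0 := (univ.filter fun v => deg E v = 0).card with hw0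
  set w1 := (univ.filter fun v => deg E v = 1).card with hw1
  set w2 := (univ.filter fun v => deg E v = 2).card with hw2
  have s0 : ∑ v, (if deg E v = 0 then 1 else 0) = w0 := by rw [hw0, card_filter]
  have s1 : ∑ v, (if deg E v = 1 then 1 else 0) = w1 := by rw [hw1, card_filter]
  have s2 : ∑ v, (if deg E v = 2 then 1 else 0) = w2 := by rw [hw2, card_filter]
  have hn : w0 + w1 + w2 = Fintype.card α := by
    rw [← s0, ← s1, ← s2, ← sum_add_distrib, ← sum_add_distrib, ← card_univ, card_eq_sum_ones]
    refine sum_congr rfl fun v _ => ?_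
    have := hE.le2 v
    split_ifs <;> omega
  have hcard : E.card = w1 + 2 * w2 := by
    rw [card_eq, ← s1, ← s2, mul_sum, ← sum_add_distrib]
    refine sum_congr rfl fun v _ => ?_
    have := hE.le2 v
    split_ifs <;> omega
  have hw0' : 1 ≤ w0 := card_pos.2 ⟨x, by simpa using hx⟩
  -- the cells
  let t : α → ℕ := fun v => if deg E v = 1 then 1 else 0
  let s : α → ℕ := fun v => if deg E v = 2 then 1 else 0
  have ht : ∑ c ∈ E, (t c.1 + t c.2 + t (L c.1 c.2)) = 3 * w1 := by
    rw [sum_all h hE.toRot, ← s1]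
    congr 1
    refine sum_congr rfl fun v _ => ?_
    simp only [t]
    split_ifs with hv
    · rw [hv]
    · simp
  have ht1 : ∀ c ∈ E, 1 ≤ t c.1 + t c.2 + t (L c.1 c.2) := by
    rintro ⟨a, b⟩ hb
    simp only [t]
    rcases fact2 h hE hb with e | e | e
    · rw [if_pos e]; omega
    · rw [if_pos e]; omega
    · rw [if_pos e]; omega
  have hE3 : E.card ≤ 3 * w1 := by
    rw [← ht, card_eq_sum_ones]
    exact sum_le_sum ht1
  -- the blocks through `x`
  have hbij : Function.Bijective (L x) := Finite.injective_iff_bijective.1 fun a b e => h.inj_left e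
  have hs : ∑ y, (s y + s (L x y)) = 2 * w2 := by
    rw [sum_add_distrib, hbij.sum_comp s, ← s2]
    ring
  have hs1 : ∀ y ∈ univ, (if y = x then 0 else 1) ≤ s y + s (L x y) := by
    intro y _
    split_ifs with hy
    · omega
    · simp only [s]
      rcases fact1 h hE hx (Ne.symm hy) with e | e
      · rw [if_pos e]; omega
      · rw [if_pos e]; omega
  have hsx : ∑ y : α, (if y = x then 0 else 1) + 1 = Fintype.card α := by
    have e1 : ∑ y : α, (if y = x then 1 else 0) = 1 := by simp
    have e2 : ∑ y : α, ((if y = x then 0 else 1) + (if y = x then 1 else 0)) = Fintype.card α := by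
      rw [← card_univ, card_eq_sum_ones]
      refine sum_congr rfl fun v _ => ?_
      split_ifs <;> rfl
    rw [sum_add_distrib, e1] at e2
    exact e2
  have hs2 : ∑ y : α, (if y = x then 0 else 1) ≤ 2 * w2 := by
    rw [← hs]
    exact sum_le_sum hs1
  -- equality everywhere
  have e1 : w1 = w2 := by omega
  have e2 : w0 = 1 := by omega
  have hD0 : ∀ v, v ≠ x → deg E v ≠ 0 := by
    intro v hv hv0
    obtain ⟨z, hz⟩ := card_eq_one.1 (hw0.symm.trans e2)
    have m1 : v ∈ ({z} : Finset α) := by rw [← hz]; simpa using hv0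
    have m2 : x ∈ ({z} : Finset α) := by rw [← hz]; simpa using hx
    rw [mem_singleton] at m1 m2
    exact hv (m1.trans m2.symm)
  have hd : ∀ v, v ≠ x → deg E v = 1 ∨ deg E v = 2 := by
    intro v hv
    have := hD0 v hv
    have := hE.le2 v
    omega
  refine ⟨hd, ?_, ?_, by omega, by omega, e2⟩
  · intro a b hb
    have key : ∀ c ∈ E, 1 = t c.1 + t c.2 + t (L c.1 c.2) := by
      rw [← sum_eq_sum_iff_of_le ht1, ht, ← card_eq_sum_ones]
      omega
    have k := key _ hb
    obtain ⟨p1, p2, p3⟩ := deg_pos3 hE hb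
    have q1 := hE.le2 a
    have q2 := hE.le2 b
    have q3 := hE.le2 (L a b)
    simp only [t] at k
    split_ifs at k <;> omega
  · intro y hy
    have key : ∀ y ∈ univ, (if y = x then 0 else 1) = s y + s (L x y) := by
      rw [← sum_eq_sum_iff_of_le hs1, hs]
      omega
    have k := key y (mem_univ y)
    have d1 := hd y hy
    have d2 := hd (L x y) (h.ne_left (Ne.symm hy))
    rw [if_neg hy] at k
    simp only [s] at k
    split_ifs at k <;> omega

end Pool.Agent.Semi79
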