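import Pool.Agent.Semi79.Struct

/-!
# Existence of the duplex
-/

namespace Pool.Agent.Semi79

open Finset

variable {α : Type*} [Fintype α] [DecidableEq α] {L : α → α → α} {E : Finset (α × α)} {x : α}

/-- if an extremal set misses a point then the order is seven and the square is explicit -/
lemma fano (h : ISQ L) (hE : Best L E) (hx : deg E x = 0) (hn : 2 ≤ Fintype.card α) :
    Fintype.card α = 7 ∧ ∃ e : Fin 7 → α, Function.Injective e ∧ ∀ i, L (e i) (e (i + 1)) = e (i + 3) := by
  have hf := facts h hE hx
  -- a point of degree one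
  obtain ⟨p, hp'⟩ : (univ.filter fun v => deg E v = 1).Nonempty := by
    rw [← card_pos]
    have := hf.c1
    omega
  have hp : deg E p = 1 := by simpa using hp'
  obtain ⟨q, hq⟩ := exists_cell hp
  have ha : Adj E p q := Or.inl hq
  have s := s4 h hE hx hp ha
  obtain ⟨sg, sk, hxr, hxp⟩ := tri h hE hx hp ha
  obtain ⟨q', hq'⟩ : ∃ q', q' = L p q := ⟨_, rfl⟩
  rw [← hq'] at s sg sk hxr hxp
  obtain ⟨g, hg⟩ : ∃ g, g = L x q' := ⟨_, rfl⟩
  rw [← hg] at sg sk hxr hxp
  obtain ⟨k, hk⟩ : ∃ k, k = L x q := ⟨_, rfl⟩
  rw [← hk] at sk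
  obtain ⟨r, hr⟩ : ∃ r, r = L g q := ⟨_, rfl⟩
  rw [← hr] at sg sk hxr hxp
  have hq2 : deg E q = 2 := adj_deg h hE.toRot hf hp ha
  have hq'2 : deg E q' = 2 := adj_deg h hE.toRot hf hp s.adj'
  have hgd : deg E g = 1 := by rw [hg]; exact s.deg'
  have hkd : deg E k = 1 := by rw [hk]; exact s.deg
  have hr2 : deg E r = 2 := adj_deg h hE.toRot hf hgd sg.adj'
  have hgp : g ≠ p := by rw [hg]; exact s.nep'
  have hkp : k ≠ p := by rw [hk]; exact s.nep
  have hqq' : q ≠ q' := s.ne
  have hgk : g ≠ k := by
    rw [hg, hk]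
    exact fun e => hqq' (h.inj_left e).symm
  have hrq : r ≠ q := sg.ne.symm
  have hrq' : r ≠ q' := sk.ne.symm
  have hxr' : x ≠ r := by rintro rfl; omega
  have hxp' : x ≠ p := by rintro rfl; omega
  have hxk' : x ≠ k := by rintro rfl; omega
  have hpr : p ≠ r := by rintro rfl; omega
  have hkr : k ≠ r := by rintro rfl; omega
  have hpq' : p ≠ q' := by rintro rfl; omega
  have hxq' : x ≠ q' := by rintro rfl; omega
  have hkq' : k ≠ q' := by rintro rfl; omega
  -- no further points of degree one
  have hD1 : ∀ v, deg E v = 1 → v = p ∨ v = g ∨ v = k := by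
    intro o ho
    by_contra hcon
    push Not at hcon
    obtain ⟨op, og, ok⟩ := hcon
    obtain ⟨u, hu⟩ := exists_cell ho
    have hou : Adj E o u := Or.inl hu
    have so := s4 h hE hx ho hou
    obtain ⟨tg, -, hxt, -⟩ := tri h hE hx ho hou
    have hu2 : deg E u = 2 := adj_deg h hE.toRot hf ho hou
    obtain ⟨u', hu'⟩ : ∃ u', u' = L o u := ⟨_, rfl⟩
    rw [← hu'] at so tg hxt
    obtain ⟨m, hm⟩ : ∃ m, m = L x u' := ⟨_, rfl⟩
    rw [← hm] at tg hxt
    have hmd : deg E m = 1 := by rw [hm]; exact so.deg'
    have hmo : m ≠ o := by rw [hm]; exact so.nep'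
    -- `u` is none of the points `q, q', r`
    have huq : u ≠ q := by
      rintro rfl
      rcases two_nbrs h hE hx hq2 ho hp hgd hou ha sg.adj with e | e | e
      · exact op e
      · exact og e
      · exact hgp e.symm
    have huq' : u ≠ q' := by
      rintro rfl
      rcases two_nbrs h hE hx hq'2 ho hp hkd hou s.adj' sk.adj with e | e | e
      · exact op e
      · exact ok e
      · exact hkp e.symm
    have hur : u ≠ r := by
      rintro rfl
      rcases two_nbrs h hE hx hr2 ho hgd hkd hou sg.adj' sk.adj' with e | e | e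
      · exact og e
      · exact ok e
      · exact hgk e
    -- the other extremal set
    obtain ⟨a, haE⟩ := exists_cell hkd
    have hnx : (x, r) ∉ E := notMem_left hx r
    obtain ⟨F, hF, hdeg, hcard, hsub⟩ := exchange h hE.toRot haE hxr' hnx
    have hblk : (a = q' ∧ L k a = r) ∨ (a = r ∧ L k a = q') := by
      have c1 := (adj_iff h hE.toRot hkd haE (q := q')).1 sk.adj
      have c2 := (adj_iff h hE.toRot hkd haE (q := r)).1 sk.adj'
      rcases c1 with c1 | c1 <;> rcases c2 with c2 | c2
      · exact absurd (c2.trans c1.symm) hrq'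
      · exact Or.inl ⟨c1.symm, c2.symm⟩
      · exact Or.inr ⟨c2.symm, c1.symm⟩
      · exact absurd (c2.trans c1.symm) hrq'
    have hiff : ∀ v, (v = k ∨ v = a ∨ v = L k a) ↔ (v = k ∨ v = q' ∨ v = r) := by
      intro v
      rcases hblk with ⟨e1, e2⟩ | ⟨e1, e2⟩
      · rw [e2, e1]
      · rw [e2, e1]
        tauto
    have i1 : ∀ v, (v = k ∨ v = q' ∨ v = r) → ind L k a v = 1 := fun v hv => ind_eq_one ((hiff v).2 hv)
    have i0 : ∀ v, v ≠ k → v ≠ q' → v ≠ r → ind L k a v = 0 := by
      intro v h1 h2 h3
      have : ¬ (v = k ∨ v = a ∨ v = L k a) := by rw [hiff]; tauto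
      push Not at this
      exact ind_eq_zero this.1 this.2.1 this.2.2
    have j1 : ∀ v, (v = x ∨ v = r ∨ v = p) → ind L x r v = 1 := fun v hv => ind_eq_one (by rw [hxr]; exact hv)
    have j0 : ∀ v, v ≠ x → v ≠ r → v ≠ p → ind L x r v = 0 := fun v h1 h2 h3 =>
      ind_eq_zero h1 h2 (by rw [hxr]; exact h3)
    have hFk : deg F k = 0 := by
      have e := hdeg k
      rw [i1 k (Or.inl rfl), j0 k hxk'.symm hkr hkp, hkd] at e
      omega
    have hFsame : ∀ v, v ≠ k → v ≠ q' → v ≠ r → v ≠ x → v ≠ p → deg F v = deg E v := by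
      intro v h1 h2 h3 h4 h5
      have e := hdeg v
      rw [i0 v h1 h2 h3, j0 v h4 h3 h5] at e
      omega
    have hFb : ∀ v, v ≠ k → 1 ≤ deg F v ∧ deg F v ≤ 2 := by
      intro v hv
      have e := hdeg v
      by_cases v1 : v = q'
      · subst v1
        rw [i1 v (Or.inr (Or.inl rfl)), j0 v hxq'.symm hrq'.symm hpq'.symm, hq'2] at e
        omega
      · by_cases v2 : v = r
        · subst v2
          rw [i1 v (Or.inr (Or.inr rfl)), j1 v (Or.inr (Or.inl rfl)), hr2] at e
          omega
        · by_cases v3 : v = x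
          · subst v3
            rw [i0 v hv v1 v2, j1 v (Or.inl rfl), hx] at e
            omega
          · by_cases v4 : v = p
            · subst v4
              rw [i0 v hv v1 v2, j1 v (Or.inr (Or.inr rfl)), hp] at e
              omega
            · have := hFsame v hv v1 v2 v3 v4
              have := hf.deg v v3
              omega
    have hFle : ∀ v, deg F v ≤ 2 := by
      intro v
      by_cases hv : v = k
      · rw [hv, hFk]; omega
      · exact (hFb v hv).2
    have hFB : Best L F := best_of hE hf hF hFle (fun v hv => (hFb v hv).1) hFk hcard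
    have hfF := facts h hFB hFk
    -- cells with a point of the three-set removed avoided
    have keep : ∀ {c d}, c ≠ k → c ≠ q' → c ≠ r → Adj E c d → Adj F c d := by
      intro c d c1 c2 c3 hcd
      have hnot : ¬ (c = k ∨ c = a ∨ c = L k a) := by rw [hiff]; tauto
      push Not at hnot
      rcases hcd with hcd | hcd
      · refine Or.inl (hsub hcd fun hc' => ?_)
        rw [mem_orb] at hc'
        tauto
      · refine Or.inr (hsub hcd fun hc' => ?_)
        rw [mem_orb] at hc'
        tauto
    have ox : o ≠ x := by rintro rfl; omega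
    have oq' : o ≠ q' := by rintro rfl; omega
    have or' : o ≠ r := by rintro rfl; omega
    have hoF : deg F o = 1 := by rw [hFsame o ok oq' or' ox op, ho]
    have houF : Adj F o u := keep ok oq' or' hou
    have soF := s4 h hFB hFk hoF houF
    obtain ⟨tgF, -, hxtF, -⟩ := tri h hFB hFk hoF houF
    rw [← hu'] at soF tgF hxtF
    obtain ⟨m', hm'⟩ : ∃ m', m' = L k u' := ⟨_, rfl⟩
    rw [← hm'] at tgF hxtF
    have hm'd : deg F m' = 1 := by rw [hm']; exact soF.deg'
    have hm'o : m' ≠ o := by rw [hm']; exact soF.nep'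
    have hm'u : Adj F m' u := by rw [hm']; exact soF.cross'
    have mu : Adj E m u := by rw [hm]; exact so.cross'
    have mk : m ≠ k := by
      rintro rfl
      rcases (adj_iff h hE.toRot hmd haE).1 mu with e | e
      · rcases hblk with ⟨e1, e2⟩ | ⟨e1, e2⟩
        · exact huq' (e.trans e1)
        · exact hur (e.trans e1)
      · rcases hblk with ⟨e1, e2⟩ | ⟨e1, e2⟩
        · exact hur (e.trans e2)
        · exact huq' (e.trans e2)
    have mq' : m ≠ q' := by rintro rfl; omega
    have mr : m ≠ r := by rintro rfl; omega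
    have mx : m ≠ x := by rintro rfl; omega
    have mp : m ≠ p := by
      rintro rfl
      rcases (adj_iff h hE.toRot hmd hq).1 mu with e | e
      · exact huq e
      · exact huq' (e.trans hq'.symm)
    have hmF : deg F m = 1 := by rw [hFsame m mk mq' mr mx mp, hmd]
    have muF : Adj F m u := keep mk mq' mr mu
    have hu2F : deg F u = 2 := adj_deg h hFB.toRot hfF hoF houF
    have hmm' : m = m' := by
      rcases two_nbrs h hFB hFk hu2F hoF hmF hm'd houF muF hm'u with e | e | e
      · exact absurd e.symm hmo
      · exact absurd e.symm hm'o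
      · exact e
    rw [← hmm'] at hxtF
    exact hxk' (h.inj_right (hxt.trans hxtF.symm))
  -- the order is seven
  have hcard7 : Fintype.card α = 7 := by
    have e1 : (univ.filter fun v => deg E v = 1) = {p, g, k} := by
      ext v
      simp only [mem_filter, mem_univ, true_and, mem_insert, mem_singleton]
      constructor
      · exact hD1 v
      · rintro (rfl | rfl | rfl) <;> assumption
    have e2 : ({p, g, k} : Finset α).card = 3 := card_eq_three.2 ⟨p, g, k, hgp.symm, hkp.symm, hgk, rfl⟩
    have := hf.c1
    rw [e1, e2] at this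
    omega
  refine ⟨hcard7, ![x, q, p, k, q', g, r], ?_, ?_⟩
  · have hxq : x ≠ q := by rintro rfl; omega
    have hxg : x ≠ g := by rintro rfl; omega
    have hqp : q ≠ p := by rintro rfl; omega
    have hqk : q ≠ k := by rintro rfl; omega
    have hqg : q ≠ g := by rintro rfl; omega
    have hq'g : q' ≠ g := by rintro rfl; omega
    have hgr : g ≠ r := by rintro rfl; omega
    intro i j hij
    fin_cases i <;> fin_cases j <;> first | rfl | (exfalso; simp at hij; tauto)
  · have t0 : L x q = k := hk.symm
    have t1 : L q p = q' := by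
      have := h.lat3 p q'
      rwa [s.pq'] at this
    have t2 : L p k = g := by rw [hk, hg]; exact s.blk
    have t3 : L k q' = r := sk.pq
    have t4 : L q' g = x := by
      have := h.semi x q'
      rwa [← hg] at this
    have t5 : L g r = q := sg.pq'
    have t6 : L r x = p := by
      have := h.lat3 x p
      rwa [hxp] at this
    intro i
    fin_cases i
    · exact t0
    · exact t1
    · exact t2
    · exact t3
    · exact t4
    · exact t5
    · exact t6

end Pool.Agent.Semi79
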