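import Pool.Agent.Semi79.Facts

/-!
# The structure of an extremal set which misses a point
-/

namespace Pool.Agent.Semi79

open Finset

variable {α : Type*} [Fintype α] [DecidableEq α] {L : α → α → α} {E : Finset (α × α)} {x : α}

/-- `p` and `q` lie on a common block of `E` -/
def Adj (E : Finset (α × α)) (p q : α) : Prop := (p, q) ∈ E ∨ (q, p) ∈ E

lemma uniq {p b b' : α} (hp : deg E p = 1) (hb : (p, b) ∈ E) (hb' : (p, b') ∈ E) : b = b' := by
  obtain ⟨z, hz⟩ := card_eq_one.1 hp
  have m1 : b ∈ ({z} : Finset α) := by rw [← hz]; simpa using hb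
  have m2 : b' ∈ ({z} : Finset α) := by rw [← hz]; simpa using hb'
  rw [mem_singleton] at m1 m2
  exact m1.trans m2.symm

lemma exists_cell {p : α} (hp : deg E p = 1) : ∃ b, (p, b) ∈ E := by
  have : 0 < deg E p := by omega
  obtain ⟨b, hb⟩ := card_pos.1 this
  exact ⟨b, by simpa using hb⟩

lemma adj_iff (h : ISQ L) (hE : Rot L E) {p b q : α} (hp : deg E p = 1) (hb : (p, b) ∈ E) :
    Adj E p q ↔ q = b ∨ q = L p b := by
  constructor
  · rintro (hq | hq)
    · exact Or.inl (uniq hp hq hb)
    · right
      have := uniq hp (hE.rot hq) hb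
      rw [← this, h.semi]
  · rintro (rfl | rfl)
    · exact Or.inl hb
    · right
      have := hE.rot (hE.rot hb)
      rwa [h.semi] at this

/-- adjacent points of degree one and two -/
lemma adj_deg (h : ISQ L) (hE : Rot L E) (hf : Facts L E x) {p q : α} (hp : deg E p = 1) (ha : Adj E p q) :
    deg E q = 2 := by
  obtain ⟨b, hb⟩ := exists_cell hp
  have := hf.x1 hb
  rcases (adj_iff h hE hp hb).1 ha with rfl | rfl <;> omega

lemma not_full (hE : Best L E) (hf : Facts L E x) {F : Finset (α × α)} (hF : Rot L F) (h2 : ∀ v, deg F v ≤ 2)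
    (h1 : ∀ v, 1 ≤ deg F v) : False := by
  have hu : unc F = 0 := by
    rw [unc, card_eq_zero, filter_eq_empty_iff]
    intro v _ e
    have := h1 v
    omega
  have := (hE.best F ⟨hF, h2⟩).1
  have := hf.unc
  omega

lemma best_of (hE : Best L E) (hf : Facts L E x) {F : Finset (α × α)} (hF : Rot L F) (h2 : ∀ v, deg F v ≤ 2)
    {u : α} (h1 : ∀ v, v ≠ u → 1 ≤ deg F v) (hu : deg F u = 0) (hc : F.card = E.card) : Best L F := by
  have hu' : unc F = 1 := by
    rw [unc, card_eq_one]
    refine ⟨u, ?_⟩
    ext v
    simp only [mem_filter, mem_univ, true_and, mem_singleton]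
    constructor
    · intro hv
      by_contra hne
      have := h1 v hne
      omega
    · rintro rfl
      exact hu
  have hEu := hf.unc
  refine ⟨⟨hF, h2⟩, fun G hG => ?_⟩
  have := hE.best G hG
  rw [hu', hc]
  rw [hEu] at this
  exact this

section

variable (h : ISQ L) (hE : Best L E) (hx : deg E x = 0)
include h hE hx

/-- no block through the uncovered point contains two points of a block of `E` one of which has degree one -/
lemma no_cover {p q : α} (hp : deg E p = 1) (ha : Adj E p q) : L x q ≠ p ∧ L x p ≠ q := by
  have hf := facts h hE hx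
  obtain ⟨b, hb⟩ := exists_cell hp
  have hq := adj_deg h hE.toRot hf hp ha
  have hq' := (adj_iff h hE.toRot hp hb).1 ha
  have hx1 := hf.x1 hb
  -- a block `x, p, q` would give a full cover
  have key : ∀ t, x ≠ t → (∀ v, (v = x ∨ v = t ∨ v = L x t) ↔ (v = x ∨ v = p ∨ v = q)) → False := by
    intro t hxt hiff
    obtain ⟨F, hF, hdeg, -, -⟩ := exchange h hE.toRot hb hxt (notMem_left hx t)
    have hb2 : deg E b = 2 ∧ deg E (L p b) = 2 := by omega
    have bounds : ∀ v, 1 ≤ deg F v ∧ deg F v ≤ 2 := by
      intro v
      have e := hdeg v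
      have e2 := hE.le2 v
      by_cases h1 : v = p ∨ v = b ∨ v = L p b
      · rw [ind_eq_one h1] at e
        have e1 : 1 ≤ deg E v := by
          rcases h1 with rfl | rfl | rfl <;> omega
        by_cases h2 : v = x ∨ v = t ∨ v = L x t
        · rw [ind_eq_one h2] at e
          omega
        · have h3 := h2
          rw [hiff] at h3
          push Not at h2 h3
          rw [ind_eq_zero h2.1 h2.2.1 h2.2.2] at e
          have : deg E v = 2 := by
            rcases h1 with rfl | rfl | rfl
            · exact absurd rfl h3.2.1
            · exact hb2.1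
            · exact hb2.2
          omega
      · have h1' := h1
        push Not at h1
        rw [ind_eq_zero h1.1 h1.2.1 h1.2.2] at e
        by_cases h2 : v = x ∨ v = t ∨ v = L x t
        · have h3 := h2
          rw [hiff] at h3
          rw [ind_eq_one h2] at e
          rcases h3 with rfl | rfl | rfl
          · omega
          · exact absurd rfl h1.1
          · exfalso
            rcases hq' with e' | e'
            · exact h1.2.1 e'
            · exact h1.2.2 e'
        · push Not at h2
          rw [ind_eq_zero h2.1 h2.2.1 h2.2.2] at e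
          have := hf.deg v h2.1
          omega
    exact not_full hE hf hF (fun v => (bounds v).2) fun v => (bounds v).1
  have hxp : x ≠ p := by rintro rfl; omega
  have hxq : x ≠ q := by rintro rfl; omega
  constructor
  · intro e
    refine key q hxq fun v => ?_
    rw [e]
    tauto
  · intro e
    refine key p hxp fun v => ?_
    rw [e]

end

end Pool.Agent.Semi79
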