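import Pool.Agent.Semi79.Core

/-!
# The whole structure
-/

namespace Pool.Agent.Semi79

open Finset

variable {α : Type*} [Fintype α] [DecidableEq α] {L : α → α → α} {E : Finset (α × α)} {x : α}

section

variable (h : ISQ L) (hE : Best L E) (hx : deg E x = 0)
include h hE hx

/-- the structure at a point of degree one -/
lemma s4_cell {p b : α} (hp : deg E p = 1) (hb : (p, b) ∈ E) : S4 L E x p b (L p b) := by
  have hf := facts h hE hx
  obtain ⟨c, hc⟩ : ∃ c, c = L p b := ⟨_, rfl⟩
  have hx1 := hf.x1 hb
  rw [← hc] at hx1 ⊢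
  have hb2 : deg E b = 2 := by omega
  have hc2 : deg E c = 2 := by omega
  have hpb : p ≠ b := by rintro rfl; omega
  have hbc : b ≠ c := by rw [hc]; exact (h.ne_right hpb).symm
  -- the admissible blocks
  let B : Finset α := univ.filter fun v => deg E v = 2 ∧ v ≠ b ∧ v ≠ c
  let B' : Finset α := univ.filter fun v => L p v ∈ B
  let C : Finset α := univ.filter fun v => v ≠ p ∧ v ∉ B ∧ L p v ∉ B
  have hB : B.card + 2 = (univ.filter fun v => deg E v = 2).card := by
    have e1 : (univ.filter fun v => deg E v = 2) = B ∪ {b, c} := by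
      ext v
      simp only [B, mem_filter, mem_univ, true_and, mem_union, mem_insert, mem_singleton]
      constructor
      · intro hv
        by_cases h1 : v = b
        · exact Or.inr (Or.inl h1)
        · by_cases h2 : v = c
          · exact Or.inr (Or.inr h2)
          · exact Or.inl ⟨hv, h1, h2⟩
      · rintro (hv | rfl | rfl)
        · exact hv.1
        · exact hb2
        · exact hc2
    rw [e1, card_union_of_disjoint, card_pair hbc]
    rw [disjoint_right]
    intro v hv hvB
    simp only [B, mem_filter, mem_univ, true_and] at hvB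
    rw [mem_insert, mem_singleton] at hv
    rcases hv with e | e
    · exact hvB.2.1 e
    · exact hvB.2.2 e
  have hB' : B'.card ≤ B.card := by
    apply card_le_card_of_injOn (fun v => L p v)
    · intro v hv
      have hv' : v ∈ B' := hv
      simp only [B', mem_filter, mem_univ, true_and] at hv'
      exact hv'
    · intro u _ v _ e
      exact h.inj_left e
  have hcov : (univ : Finset α) ⊆ (({p} ∪ C) ∪ B) ∪ B' := by
    intro v _
    simp only [mem_union, mem_singleton]
    by_cases h1 : v = p
    · exact Or.inl (Or.inl (Or.inl h1))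
    · by_cases h2 : v ∈ B
      · exact Or.inl (Or.inr h2)
      · by_cases h3 : L p v ∈ B
        · right
          simp only [B', mem_filter, mem_univ, true_and]
          exact h3
        · left; left; right
          simp only [C, mem_filter, mem_univ, true_and]
          exact ⟨h1, h2, h3⟩
  have hC4 : 4 ≤ C.card := by
    have e1 := card_le_card hcov
    have e2 := card_union_le (({p} ∪ C) ∪ B) B'
    have e3 := card_union_le ({p} ∪ C) B
    have e4 := card_union_le {p} C
    have e5 := hf.c2
    rw [card_univ] at e1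
    rw [card_singleton] at e4
    omega
  have hCcore : ∀ y ∈ C, y ≠ b → (y = c ∧ L p y = b) ∨
      (deg E (L x b) = 1 ∧ deg E (L x c) = 1 ∧ L x b ≠ p ∧ L x c ≠ p ∧
      Adj E (L x b) c ∧ Adj E (L x c) b ∧ L x (L x b) = b ∧ L x (L x c) = c ∧
      ((y = L x b ∧ L p y = L x c) ∨ (y = L x c ∧ L p y = L x b))) := by
    intro y hy hyb
    simp only [C, B, mem_filter, mem_univ, true_and, not_and, not_not] at hy
    rw [hc]
    refine core h hE hx hp hb hy.1 (fun e => ?_) (fun e => ?_) hyb
    · by_cases h1 : y = b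
      · exact Or.inl h1
      · exact Or.inr ((hy.2.1 e h1).trans hc)
    · by_cases h1 : L p y = b
      · exact Or.inl h1
      · exact Or.inr ((hy.2.2 e h1).trans hc)
  have hCsub : C ⊆ {b, c, L x b, L x c} := by
    intro y hy
    simp only [mem_insert, mem_singleton]
    by_cases hyb : y = b
    · exact Or.inl hyb
    · rcases hCcore y hy hyb with h1 | h1
      · exact Or.inr (Or.inl h1.1)
      · rcases h1.2.2.2.2.2.2.2.2 with h2 | h2
        · exact Or.inr (Or.inr (Or.inl h2.1))
        · exact Or.inr (Or.inr (Or.inr h2.1))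
  have hCeq : C = {b, c, L x b, L x c} := eq_of_subset_of_card_le hCsub (card_le_four.trans hC4)
  -- a block of the third type exists
  have hthird : ∃ y ∈ C, y ≠ b ∧ y ≠ c := by
    by_contra hcon
    push Not at hcon
    have : C ⊆ {b, c} := by
      intro y hy
      rw [mem_insert, mem_singleton]
      by_cases hyb : y = b
      · exact Or.inl hyb
      · exact Or.inr (hcon y hy hyb)
    have := card_le_card this
    have := card_le_two (a := b) (b := c)
    omega
  obtain ⟨y, hyC, hyb, hyc⟩ := hthird
  have hy := (hCcore y hyC hyb).resolve_left fun e => hyc e.1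
  obtain ⟨d1, d2, n1, n2, a1, a2, g1, g2, -⟩ := hy
  have hne : L x b ≠ L x c := fun e => hbc (h.inj_left e)
  have hhb : L x b ≠ b := fun e => by rw [e] at d1; omega
  have hgb : L x c ≠ b := fun e => by rw [e] at d2; omega
  have hhc : L x b ≠ c := fun e => by rw [e] at d1; omega
  have hgc : L x c ≠ c := fun e => by rw [e] at d2; omega
  have hcb : L p c = b := by
    have m : c ∈ C := by rw [hCeq]; simp
    rcases hCcore c m hbc.symm with h1 | h1
    · exact h1.2
    · rcases h1.2.2.2.2.2.2.2.2 with h2 | h2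
      · exact absurd h2.1.symm hhc
      · exact absurd h2.1.symm hgc
  have hblk : L p (L x b) = L x c := by
    have m : L x b ∈ C := by rw [hCeq]; simp
    rcases hCcore _ m hhb with h1 | h1
    · exact absurd h1.1 hhc
    · rcases h1.2.2.2.2.2.2.2.2 with h2 | h2
      · exact h2.2
      · exact absurd h2.1 hne
  have hblk' : L p (L x c) = L x b := by
    have m : L x c ∈ C := by rw [hCeq]; simp
    rcases hCcore _ m hgb with h1 | h1
    · exact absurd h1.1 hgc
    · rcases h1.2.2.2.2.2.2.2.2 with h2 | h2
      · exact absurd h2.1.symm hne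
      · exact h2.2
  exact { adj := Or.inl hb
          adj' := by rw [adj_iff h hE.toRot hp hb, ← hc]; exact Or.inr rfl
          pq := hc.symm
          pq' := hcb
          ne := hbc
          deg := d1
          deg' := d2
          nep := n1
          nep' := n2
          cross := a1
          cross' := a2
          inv := g1
          inv' := g2
          blk := hblk
          blk' := hblk' }

end

lemma S4.symm {p q q' : α} (s : S4 L E x p q q') : S4 L E x p q' q where
  adj := s.adj'
  adj' := s.adj
  pq := s.pq'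
  pq' := s.pq
  ne := s.ne.symm
  deg := s.deg'
  deg' := s.deg
  nep := s.nep'
  nep' := s.nep
  cross := s.cross'
  cross' := s.cross
  inv := s.inv'
  inv' := s.inv
  blk := s.blk'
  blk' := s.blk

section

variable (h : ISQ L) (hE : Best L E) (hx : deg E x = 0)
include h hE hx

lemma s4 {p q : α} (hp : deg E p = 1) (ha : Adj E p q) : S4 L E x p q (L p q) := by
  obtain ⟨b, hb⟩ := exists_cell hp
  have s := s4_cell h hE hx hp hb
  rcases (adj_iff h hE.toRot hp hb).1 ha with rfl | rfl
  · exact s
  · have := s.symm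
    rwa [s.pq']

/-- a point of degree two has at most two neighbours of degree one -/
lemma two_nbrs {q p₁ p₂ p₃ : α} (hq : deg E q = 2) (h1 : deg E p₁ = 1) (h2 : deg E p₂ = 1) (h3 : deg E p₃ = 1)
    (a1 : Adj E p₁ q) (a2 : Adj E p₂ q) (a3 : Adj E p₃ q) : p₁ = p₂ ∨ p₁ = p₃ ∨ p₂ = p₃ := by
  have hf := facts h hE hx
  have key : ∀ {p}, Adj E p q → ∃ b, (q, b) ∈ E ∧ (p = b ∨ p = L q b) := by
    rintro p (hp | hp)
    · exact ⟨L p q, hE.rot hp, Or.inr (h.semi p q).symm⟩
    · exact ⟨p, hp, Or.inl rfl⟩
  have same : ∀ {p p' b}, deg E p = 1 → deg E p' = 1 → (q, b) ∈ E → (p = b ∨ p = L q b) → (p' = b ∨ p' = L q b) →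
      p = p' := by
    intro p p' b hp hp' hb hpb hpb'
    have := hf.x1 hb
    rcases hpb with rfl | rfl <;> rcases hpb' with rfl | rfl
    · rfl
    · omega
    · omega
    · rfl
  obtain ⟨b1, m1, e1⟩ := key a1
  obtain ⟨b2, m2, e2⟩ := key a2
  obtain ⟨b3, m3, e3⟩ := key a3
  obtain ⟨u, v, -, huv⟩ := card_eq_two.1 hq
  have mem : ∀ {b}, (q, b) ∈ E → b = u ∨ b = v := by
    intro b hb
    have : b ∈ ({u, v} : Finset α) := by rw [← huv]; simpa using hb
    simpa using this
  have pig : b1 = b2 ∨ b1 = b3 ∨ b2 = b3 := by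
    rcases mem m1 with rfl | rfl <;> rcases mem m2 with rfl | rfl <;> rcases mem m3 with rfl | rfl <;> tauto
  rcases pig with rfl | rfl | rfl
  · exact Or.inl (same h1 h2 m1 e1 e2)
  · exact Or.inr (Or.inl (same h1 h3 m1 e1 e3))
  · exact Or.inr (Or.inr (same h2 h3 m2 e2 e3))

/-- the configuration of three blocks `p, q, q'`; `g, q, r`; `h, q', r` -/
lemma tri {p q : α} (hp : deg E p = 1) (ha : Adj E p q) :
    S4 L E x (L x (L p q)) q (L (L x (L p q)) q) ∧ S4 L E x (L x q) (L p q) (L (L x (L p q)) q) ∧
      L x (L (L x (L p q)) q) = p ∧ L x p = L (L x (L p q)) q := by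
  have hf := facts h hE hx
  have s := s4 h hE hx hp ha
  obtain ⟨q', hq'⟩ : ∃ q', q' = L p q := ⟨_, rfl⟩
  rw [← hq'] at s ⊢
  obtain ⟨g, hg⟩ : ∃ g, g = L x q' := ⟨_, rfl⟩
  obtain ⟨k, hk⟩ : ∃ k, k = L x q := ⟨_, rfl⟩
  have sg : S4 L E x g q (L g q) := by
    rw [hg]
    exact s4 h hE hx s.deg' s.cross'
  rw [← hg, ← hk]
  obtain ⟨r, hr⟩ : ∃ r, r = L g q := ⟨_, rfl⟩
  rw [← hr] at sg ⊢
  -- `L x r = p`
  have hq2 : deg E q = 2 := adj_deg h hE.toRot hf hp ha
  have hgd : deg E g = 1 := by rw [hg]; exact s.deg'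
  have hgp : g ≠ p := by rw [hg]; exact s.nep'
  have hxr : L x r = p := by
    rcases two_nbrs h hE hx hq2 hp hgd sg.deg' ha sg.adj sg.cross' with e | e | e
    · exact absurd e.symm hgp
    · exact e.symm
    · exact absurd e.symm sg.nep'
  have hxp : L x p = r := by
    have := sg.inv'
    rwa [hxr] at this
  refine ⟨sg, ?_, hxr, hxp⟩
  -- the third block
  have kq' : Adj E k q' := by rw [hk]; exact s.cross
  have kr : Adj E k r := by rw [hk]; exact sg.cross
  have kd : deg E k = 1 := by rw [hk]; exact s.deg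
  have sk := s4 h hE hx kd kq'
  have hrq' : r ≠ q' := by
    rintro e
    rw [e] at hxr
    exact hgp (hg.trans hxr)
  obtain ⟨b, hb⟩ := exists_cell kd
  have i := adj_iff h hE.toRot kd hb (q := r)
  have i' := adj_iff h hE.toRot kd hb (q := q')
  have i'' := adj_iff h hE.toRot kd hb (q := L k q')
  have c1 := i.1 kr
  have c2 := i'.1 kq'
  have c3 := i''.1 sk.adj'
  have hLk : L k q' = r := by
    have hne := sk.ne
    rcases c1 with c1 | c1 <;> rcases c2 with c2 | c2 <;> rcases c3 with c3 | c3
    · exact absurd (c1.trans c2.symm) hrq'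
    · exact absurd (c1.trans c2.symm) hrq'
    · exact c3.trans c1.symm
    · exact absurd (c2.trans c3.symm) hne
    · exact absurd (c2.trans c3.symm) hne
    · exact c3.trans c1.symm
    · exact absurd (c1.trans c2.symm) hrq'
    · exact absurd (c1.trans c2.symm) hrq'
  rwa [hLk] at sk

end

end Pool.Agent.Semi79
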